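import Pool.Agent.R903.Corr

/-!
# Murre's conjecture (B) and injectivity of the Lefschetz operators: definitions
-/

open CategoryTheory Pool.Agent.H914 Pool.Agent.R903

universe u v w

namespace Pool.Agent.Run7.h192.HB

/-- `a + b` -/
def plus {A : Type v} [CommRing A] (a b : A) : A := a + b

/-- `a ^ m * x` -/
def powTimes {A : Type v} [CommRing A] (a : A) (m : ℕ) (x : A) : A := a ^ m * x

/-- `∑ (j - n) π_j`, the sum over `j = 0, …, 2n` -/
def weighted {A : Type v} [CommRing A] [Algebra ℚ A] (n : ℕ) (π : ℕ → A) : A :=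
  ∑ j ∈ Finset.range (2 * n + 1), ((j : ℚ) - n) • π j

variable {k : Type u} [Field k] {𝒱 : VarClass k}

/-- The class `x` has codimension `i`. -/
def IsCodim (C : ChowTheory.{u, v} 𝒱) {X : 𝒱.Obj} (i : ℕ) (x : C.CH X) : Prop :=
  x ∈ C.gr X i

/-- `γ` maps `x` to zero. -/
def Kills (C : ChowTheory.{u, v} 𝒱) {X : 𝒱.Obj} (γ : C.CH (X.prod X)) (x : C.CH X) : Prop :=
  C.act γ x = 0

/-- The relation `β ∘ α - α ∘ β = γ` of correspondences (`C.comp α β` is `β ∘ α`). -/
def Bracket (C : ChowTheory.{u, v} 𝒱) {X : 𝒱.Obj} (α β γ : C.CH (X.prod X)) : Prop :=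
  C.comp α β = plus (C.comp β α) γ

/-- The correspondence from `X` to `X` which acts as multiplication by `D`: the push-forward of `D`
under the diagonal. -/
noncomputable def mulBy (C : ChowTheory.{u, v} 𝒱) {X : 𝒱.Obj} (D : C.CH X) : C.CH (X.prod X) :=
  C.push (VarClass.Obj.diag X) D

/-- `D ⊞ D`, the sum of the pull-backs of `D` under the projections; more generally `D ⊞ E`. -/
noncomputable def boxSum (C : ChowTheory.{u, v} 𝒱) {X Y : 𝒱.Obj} (D : C.CH X) (E : C.CH Y) :
    C.CH (X.prod Y) :=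
  plus (C.pull (VarClass.Obj.fst X Y) D) (C.pull (VarClass.Obj.snd X Y) E)

variable {C : ChowTheory.{u, v} 𝒱}

/-- `x` is a homologically trivial class of codimension `i`. -/
def HomTrivial (W : WeilTheory.{u, v, w} C) {X : 𝒱.Obj} (i : ℕ) (x : C.CH X) : Prop :=
  IsCodim C i x ∧ W.cl X x = 0

/-- The divisor class `D`, the correspondence `Λ` of codimension `n - 1` and the Chow–Künneth
decomposition `π` form a Lefschetz triple of the Chow motive of `X`, `n = dim X`: with `L` the
multiplication by `D` and `H` the multiplication by `j - n` on `h^j(X)`, the relations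
`[H, L] = 2 L`, `[Λ, H] = 2 Λ` and `[L, Λ] = H` of `sl₂` hold for the correspondences. For abelian
varieties, symmetric ample `D` and the canonical `π` there is such a `Λ`, by a theorem of
Künnemann. -/
structure Triple (W : WeilTheory.{u, v, w} C) {X : 𝒱.Obj} (D : C.CH X) (Λ : C.CH (X.prod X))
    (π : ℕ → C.CH (X.prod X)) : Prop where
  ck : W.IsCK X π
  divisor : IsCodim C 1 D
  codim : IsCodim C (X.dim - 1) Λ
  up : Bracket C (mulBy C D) (weighted X.dim π) (plus (mulBy C D) (mulBy C D))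
  down : Bracket C (weighted X.dim π) Λ (plus Λ Λ)
  rel : Bracket C Λ (mulBy C D) (weighted X.dim π)

/-- `D ^ (n - 2i)` is injective on `CH^i(X)`. -/
def InjAt (C : ChowTheory.{u, v} 𝒱) {X : 𝒱.Obj} (D : C.CH X) (i : ℕ) : Prop :=
  ∀ x : C.CH X, IsCodim C i x → powTimes D (X.dim - 2 * i) x = 0 → x = 0

/-- `D ^ (n + 1 - 2i)` is injective on the homologically trivial classes of codimension `i`. -/
def HomInjAt (W : WeilTheory.{u, v, w} C) {X : 𝒱.Obj} (D : C.CH X) (i : ℕ) : Prop :=
  ∀ x : C.CH X, HomTrivial W i x → powTimes D (X.dim + 1 - 2 * i) x = 0 → x = 0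

/-- `D ^ (n - 2i)` is injective on `CH^i(X)` for all `i ≤ n / 2`. -/
def Inj (C : ChowTheory.{u, v} 𝒱) {X : 𝒱.Obj} (D : C.CH X) : Prop :=
  ∀ i, 2 * i ≤ X.dim → InjAt C D i

/-- `D ^ (n + 1 - 2i)` is injective on the homologically trivial classes of codimension `i` for all
`i ≤ (n + 1) / 2`. -/
def HomInj (W : WeilTheory.{u, v, w} C) {X : 𝒱.Obj} (D : C.CH X) : Prop :=
  ∀ i, 2 * i ≤ X.dim + 1 → HomInjAt W D i

/-- `x` belongs to `F^k CH^i(X)`, for the Chow–Künneth decomposition `π`: it is killed by all `π j`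
with `j > 2i - k`. (The same as: it belongs to the image of `CH^i(X)` under
`π 0 + ... + π (2i - k)`, see `inFil_iff` in `Pool/Agent/Run7/h192/HB/Main.lean`.) -/
def InFil (C : ChowTheory.{u, v} 𝒱) {X : 𝒱.Obj} (π : ℕ → C.CH (X.prod X)) (i k : ℕ)
    (x : C.CH X) : Prop :=
  IsCodim C i x ∧ ∀ j, 2 * i < j + k → Kills C (π j) x

/-- `F^0 CH^i(X) = CH^i(X)`. -/
def FilZero (C : ChowTheory.{u, v} 𝒱) {X : 𝒱.Obj} (π : ℕ → C.CH (X.prod X)) (i : ℕ) : Prop :=
  ∀ x, IsCodim C i x → InFil C π i 0 x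

/-- `F^(i + 1) CH^i(X) = 0`. -/
def FilEnds (C : ChowTheory.{u, v} 𝒱) {X : 𝒱.Obj} (π : ℕ → C.CH (X.prod X)) (i : ℕ) : Prop :=
  ∀ x, InFil C π i (i + 1) x → x = 0

/-- `F^1 CH^i(X)` consists of the homologically trivial classes. -/
def FilOne (W : WeilTheory.{u, v, w} C) {X : 𝒱.Obj} (π : ℕ → C.CH (X.prod X)) (i : ℕ) : Prop :=
  ∀ x, InFil C π i 1 x ↔ HomTrivial W i x

/-- Conjecture (B) for the decomposition `π`. -/
def SatisfiesB (C : ChowTheory.{u, v} 𝒱) {X : 𝒱.Obj} (π : ℕ → C.CH (X.prod X)) : Prop :=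
  ∀ i, FilZero C π i ∧ FilEnds C π i

/-- All Chow–Künneth decompositions of `X` define the same filtrations. -/
def Independent (W : WeilTheory.{u, v, w} C) (X : 𝒱.Obj) : Prop :=
  ∀ π π', W.IsCK X π → W.IsCK X π' → ∀ i k x, InFil C π i k x → InFil C π' i k x

/-- Conjecture (B) for all Chow–Künneth decompositions of `X`, and they define the same
filtrations. -/
def AllB (W : WeilTheory.{u, v, w} C) (X : 𝒱.Obj) : Prop :=
  (∀ π, W.IsCK X π → SatisfiesB C π) ∧ Independent W X

/-- For all Chow–Künneth decompositions of `X` and all `i`, `F^1 CH^i(X)` consists of the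
homologically trivial classes. -/
def AllOne (W : WeilTheory.{u, v, w} C) (X : 𝒱.Obj) : Prop :=
  ∀ π, W.IsCK X π → ∀ i, FilOne W π i

/-- The only idempotent in `CH^(dim X)(X × X)` which is homologically trivial is `0`. -/
def NoPhantom (W : WeilTheory.{u, v, w} C) (X : 𝒱.Obj) : Prop :=
  ∀ e : C.CH (X.prod X), HomTrivial W X.dim e → C.comp e e = e → e = 0

/-- The property `P` for one decomposition which belongs to a Lefschetz triple with `D`. -/
def ForOne (W : WeilTheory.{u, v, w} C) {X : 𝒱.Obj} (D : C.CH X)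
    (P : (ℕ → C.CH (X.prod X)) → Prop) : Prop :=
  ∃ Λ π, Triple W D Λ π ∧ P π

/-- A class of pairs of a variety `X` and a divisor class `D`, each of which belongs to a Lefschetz
triple, which is closed under products. -/
structure Pairs (W : WeilTheory.{u, v, w} C) where
  /-- the members -/
  mem : ∀ X : 𝒱.Obj, C.CH X → Prop
  triple : ∀ X D, mem X D → ∃ Λ π, Triple W D Λ π
  prod : ∀ X Y D E, mem X D → mem Y E → mem (X.prod Y) (boxSum C D E)

/-- The property `P` for all members of the class. -/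
def Pairs.All {W : WeilTheory.{u, v, w} C} (𝒯 : Pairs W) (P : ∀ X : 𝒱.Obj, C.CH X → Prop) :
    Prop :=
  ∀ X D, 𝒯.mem X D → P X D

end Pool.Agent.Run7.h192.HB
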