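import Pool.Agent.Run7.h192.HL.Full
import Pool.Agent.Run7.h192.HB.Defs

/-!
# Murre's conjecture (B) and injectivity
-/

set_option autoImplicit false

open CategoryTheory CategoryTheory.Limits AlgebraicGeometry Finset
open Pool.Agent.H914 Pool.Agent.H914.VarClass Pool.Agent.H914.VarClass.Obj Pool.Agent.R903
open Pool.Agent.R903.ChowTheory Pool.Agent.R903.WeilTheory Pool.Agent.Run7.h192.Murre
open Pool.Agent.Run7.h192.AJ
open Pool.Agent.Run7.h192.HL (LefschetzTriple LefInjective mulC weightC homSub sumDiv stable_gr stable_hom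
  ckFil_one_iff ckFil_zero_of_one isBracket_iff weightC_eq)

universe u v w

namespace Pool.Agent.Run7.h192.HB

variable {k : Type u} [Field k] {𝒱 : VarClass k} {C : ChowTheory.{u, v} 𝒱}
  {W : WeilTheory.{u, v, w} C} {X Y Z : 𝒱.Obj} {D : C.CH X} {Λ : C.CH (X.prod X)}
  {π π' : ℕ → C.CH (X.prod X)}

lemma Triple.toHL (h : Triple W D Λ π) : LefschetzTriple W D Λ π where
  ck := h.ck
  divisor := h.divisor
  codim := h.codim
  point hd := by
    have h1 : C.comp (weightC C π) Λ - C.comp Λ (weightC C π) = Λ + Λ := isBracket_iff.1 h.down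
    have h2 : weightC C π = 0 := by
      rw [weightC_eq, hd]
      simp
    rw [h2, C.comp_zero, C.zero_comp, sub_zero, ← two_smul ℚ, eq_comm] at h1
    exact (smul_eq_zero.1 h1).resolve_left two_ne_zero
  up0 := h.up
  down0 := h.down
  rel0 := h.rel

/-- The filtration of the question. -/
lemma inFil_iff (h : W.IsCK X π) {i k : ℕ} {x : C.CH X} : InFil C π i k x ↔ x ∈ C.ckFil π i k := by
  rw [mem_ckFil h]
  exact Iff.rfl

lemma filZero_iff {i : ℕ} : FilZero C π i ↔
    ∀ j, 2 * i < j → ∀ x ∈ C.gr X i, C.act (π j) x = 0 :=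
  ⟨fun h j hj x hx => (h x hx).2 j hj, fun h x hx => ⟨hx, fun j hj => h j hj x hx⟩⟩

lemma filOne_iff (h : W.IsCK X π) {i : ℕ} : FilOne W π i ↔ C.ckFil π i 1 = homSub W X i := by
  rw [SetLike.ext_iff]
  exact forall_congr' fun x => by rw [inFil_iff h]; exact Iff.rfl

lemma filEnds_iff (h : W.IsCK X π) {i : ℕ} : FilEnds C π i ↔ C.ckFil π i (i + 1) = ⊥ := by
  rw [Submodule.eq_bot_iff]
  exact forall_congr' fun x => by rw [inFil_iff h]

lemma independent_iff : Independent W X ↔ W.MurreC X := by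
  constructor
  · intro h i k π π' hπ hπ'
    ext x
    rw [← inFil_iff hπ, ← inFil_iff hπ']
    exact ⟨h π π' hπ hπ' i k x, h π' π hπ' hπ i k x⟩
  · intro h π π' hπ hπ' i k x hx
    rw [inFil_iff hπ']
    rw [inFil_iff hπ] at hx
    rwa [← h i k π π' hπ hπ']

lemma noPhantom_iff : NoPhantom W X ↔ W.NoPhantoms X := by
  constructor
  · intro h e he hee h0
    exact h e ⟨he, cl_eq_zero_of_act W (LinearMap.ext h0)⟩ hee
  · intro h e he hee
    exact h e he.1 hee fun x => by rw [act_eq_zero_of_cl W he.2, LinearMap.zero_apply]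

theorem _root_.Pool.Agent.Run7.h192.HL.LefschetzTriple.full_iff (h : LefschetzTriple W D Λ π) (N : ℕ) (hN : 2 * N ≤ X.dim) :
    (∀ i ≤ N, InjAt C D i) ↔ ∀ i ≤ N, FilZero C π i := by
  simp only [filZero_iff]
  exact h.injS_iff (stable_gr h) 0 N (by omega)

theorem _root_.Pool.Agent.Run7.h192.HL.LefschetzTriple.filEnds (h : LefschetzTriple W D Λ π) (i : ℕ) : FilEnds C π i :=
  (filEnds_iff h.ck).2 (h.ckFil_second i)

theorem _root_.Pool.Agent.Run7.h192.HL.LefschetzTriple.full_all (h : LefschetzTriple W D Λ π) :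
    Inj C D ↔ SatisfiesB C π := by
  have h3 : SatisfiesB C π ↔ ∀ i j, 2 * i < j → ∀ x ∈ C.gr X i, C.act (π j) x = 0 :=
    ⟨fun h4 i => filZero_iff.1 (h4 i).1, fun h4 i => ⟨filZero_iff.2 (h4 i), h.filEnds i⟩⟩
  rw [h3]
  exact h.injS_all (stable_gr h) 0

theorem _root_.Pool.Agent.Run7.h192.HL.LefschetzTriple.hom_iff (h : LefschetzTriple W D Λ π) (N : ℕ) (hN : 2 * N ≤ X.dim + 1) :
    (∀ i ≤ N, HomInjAt W D i) ↔ ∀ i ≤ N, FilOne W π i := by
  have h1 := h.injS_iff (stable_hom h) 1 N (by omega)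
  simp only [filOne_iff h.ck, ckFil_one_iff h.ck]
  exact h1

theorem _root_.Pool.Agent.Run7.h192.HL.LefschetzTriple.hom_all (h : LefschetzTriple W D Λ π) :
    HomInj W D ↔ SatisfiesB C π ∧ ∀ i, FilOne W π i := by
  have h1 := h.injS_all (stable_hom h) 1
  have h3 : (SatisfiesB C π ∧ ∀ i, FilOne W π i) ↔ ∀ i j, 2 * i < j + 1 → ∀ x ∈ homSub W X i,
      C.act (π j) x = 0 := by
    constructor
    · intro h4 i
      exact (ckFil_one_iff h.ck i).1 ((filOne_iff h.ck).1 (h4.2 i))
    · intro h4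
      have h5 : ∀ i, C.ckFil π i 1 = homSub W X i := fun i => (ckFil_one_iff h.ck i).2 (h4 i)
      refine ⟨fun i => ⟨?_, h.filEnds i⟩, fun i => (filOne_iff h.ck).2 (h5 i)⟩
      rw [filZero_iff]
      exact (ckFil_zero_eq_iff h.ck).1 (ckFil_zero_of_one h.ck (h5 i))
  rw [h3]
  exact h1

/-! ### the square -/

/-- the blocks on and above the diagonal -/
theorem _root_.Pool.Agent.Run7.h192.HL.LefschetzTriple.upperBlocks (h : LefschetzTriple W D Λ π)
    (hI : HomInj W (boxSum C D D)) {a b : ℕ}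
    {γ : C.CH (X.prod X)} (hγ : Codim C X.dim γ) (hab : a < b ∨ (a = b ∧ HomTriv W X.dim γ)) :
    C.comp (C.comp (π a) γ) (π b) = 0 := by
  have ht := h.transp.prod h
  by_cases ha : 2 * X.dim < a
  · rw [h.ck.eq_zero ha, C.zero_comp, C.zero_comp]
  have h2 : HomTriv W X.dim (C.comp (C.comp (π a) γ) (π b)) := by
    refine block_homTriv h.ck h.ck hγ ?_
    rcases hab with hab | hab
    · exact Or.inl (by omega)
    · exact Or.inr hab.2
  rw [← act_prodCK_block h.ck h.ck (by omega) b γ]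
  exact (ht.injS_all (stable_hom ht) 1).1 hI X.dim _ (by omega) _ h2

theorem _root_.Pool.Agent.Run7.h192.HL.LefschetzTriple.noPhantoms (h : LefschetzTriple W D Λ π)
    (hI : HomInj W (boxSum C D D)) :
    W.NoPhantoms X := by
  intro e he hee h0
  have h0' : HomTriv W X.dim e := ⟨he, cl_eq_zero_of_act W (LinearMap.ext h0)⟩
  have key : ∀ t a b : ℕ, a < b + t → C.comp (C.comp (π a) e) (π b) = 0 := by
    intro t
    induction t with
    | zero => intro a b hab; exact h.upperBlocks hI he (Or.inl (by omega))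
    | succ t ih =>
      intro a b hab
      rcases lt_trichotomy a b with h1 | h1 | h1
      · exact h.upperBlocks hI he (Or.inl h1)
      · exact h.upperBlocks hI he (Or.inr ⟨h1, h0'⟩)
      have e1 : C.comp (C.comp (π a) e) (π b) = ∑ c ∈ range (2 * X.dim + 1),
          C.comp (C.comp (C.comp (π a) e) (π c)) (C.comp (C.comp (π c) e) (π b)) := by
        have e2 : ∀ c, C.comp (C.comp (C.comp (π a) e) (π c)) (C.comp (C.comp (π c) e) (π b)) =
            C.comp (C.comp (C.comp (π a) e) (π c)) (C.comp e (π b)) := by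
          intro c
          rw [C.comp_assoc (C.comp (π a) e), C.comp_assoc (π c) e, ← C.comp_assoc (π c) (π c),
            h.ck.idem, ← C.comp_assoc (C.comp (π a) e)]
        simp only [e2]
        rw [← C.sum_comp, ← C.comp_sum, h.ck.sum, C.comp_diagC, ← C.comp_assoc,
          C.comp_assoc (π a) e e, hee]
      rw [e1]
      refine Finset.sum_eq_zero fun c _ => ?_
      rcases lt_or_ge a (c + t) with h2 | h2
      · rw [ih a c h2, C.zero_comp]
      · rcases lt_or_ge c (b + t) with h3 | h3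
        · rw [ih c b h3, C.comp_zero]
        · rcases Nat.eq_zero_or_pos t with ht | ht
          · have hca : c = a := by omega
            subst hca
            rw [h.upperBlocks hI he (Or.inr ⟨rfl, h0'⟩), C.zero_comp]
          · omega
  rw [sum_blocks h.ck e]
  exact Finset.sum_eq_zero fun a _ => Finset.sum_eq_zero fun b _ => key (a + 1) a b (by omega)

/-- from the correspondences to the cycles -/
theorem filOne_of_blocks (hP : C.Polarized) (h : W.IsCK X π)
    (h1 : ∀ {a b : ℕ} {γ : C.CH (X.prod X)}, Codim C X.dim γ →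
      (a < b ∨ (a = b ∧ HomTriv W X.dim γ)) → C.comp (C.comp (π a) γ) (π b) = 0) (i : ℕ) :
    FilOne W π i := by
  rw [filOne_iff h, ckFil_one_iff h]
  intro j hj x hx
  by_cases hi : X.dim < i
  · have h4 : x ∈ C.gr X i := hx.1
    rw [C.gr_eq_bot X i hi, Submodule.mem_bot] at h4
    rw [h4, map_zero]
  obtain ⟨D, hD, hdeg⟩ := hP X
  have hpow : ∀ m, D ^ m ∈ C.gr X m := by
    intro m
    induction m with
    | zero => rw [pow_zero]; exact C.one_mem X
    | succ m ih => rw [pow_succ]; exact C.mul_mem ih hD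
  have hext : Codim C X.dim (C.ext (D ^ (X.dim - i)) x) := by
    have := C.ext_mem (hpow (X.dim - i)) hx.1
    rwa [Nat.sub_add_cancel (by omega)] at this
  have hext' : HomTriv W X.dim (C.ext (D ^ (X.dim - i)) x) := by
    refine ⟨hext, ?_⟩
    rw [ChowTheory.ext, W.cl_mul, W.cl_pull (snd X X), hx.2, map_zero, mul_zero]
  have h4 : C.comp (C.comp (π (2 * i)) (C.ext (D ^ (X.dim - i)) x)) (π j) = 0 := by
    rcases lt_or_eq_of_le (show 2 * i ≤ j by omega) with h5 | h5
    · exact h1 hext (Or.inl h5)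
    · exact h1 hext (Or.inr ⟨h5, hext'⟩)
  have h5 := congrArg (fun γ => C.act γ (C.act (π (2 * i)) (D ^ i))) h4
  rw [C.act_comp, C.act_comp, h.act_act, if_pos rfl, C.act_ext, map_smul, C.act_zero,
    LinearMap.zero_apply] at h5
  refine (smul_eq_zero.1 h5).resolve_left ?_
  have hdeg' : C.deg X (C.act (π (2 * i)) (D ^ i) * D ^ (X.dim - i)) = C.deg X (D ^ X.dim) := by
    have h1 : (C.deg X (C.act (π (2 * i)) (D ^ i) * D ^ (X.dim - i)) : W.K) =
        (C.deg X (D ^ X.dim) : W.K) := by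
      rw [← W.tr_cl, ← W.tr_cl, W.cl_mul, W.cl_act, h.proj _ _ _ (W.cl_mem (hpow i)), if_pos rfl,
        ← W.cl_mul, ← pow_add, Nat.add_sub_cancel' (by omega)]
    exact_mod_cast h1
  rw [hdeg']
  exact hdeg

theorem allB_of (hP : C.Polarized) (hC : W.MurreC X) (h : LefschetzTriple W D Λ π) :
    AllB W X := by
  refine ⟨fun π' h' i => ⟨?_, ?_⟩, independent_iff.2 hC⟩
  · rw [filZero_iff]
    exact (ckFil_zero_eq_iff h').1 ((hC i 0).murreB0 hP π' h')
  · rw [filEnds_iff h', hC i (i + 1) π' π h' h.ck, h.ckFil_second i]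

theorem _root_.Pool.Agent.Run7.h192.HL.LefschetzTriple.squareB (hP : C.Polarized) (h : LefschetzTriple W D Λ π)
    (hI : HomInj W (boxSum C D D)) : NoPhantom W X ∧ AllB W X ∧ AllOne W X := by
  have hN := h.noPhantoms hI
  have hT : C.IsTriangular π := fun a b hab γ hγ => h.upperBlocks hI hγ (Or.inl hab)
  have hC := (triangular_of_one hN h.ck hT).murreC
  have h1 : ∀ i, FilOne W π i := filOne_of_blocks hP h.ck (fun hγ hab => h.upperBlocks hI hγ hab)
  refine ⟨noPhantom_iff.2 hN, allB_of hP hC h, fun π' h' i => ?_⟩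
  rw [filOne_iff h', hC i 1 π' π h' h.ck]
  exact (filOne_iff h.ck).1 (h1 i)

theorem _root_.Pool.Agent.Run7.h192.HL.LefschetzTriple.triangularOfFull (h : LefschetzTriple W D Λ π)
    (hI : Inj C (boxSum C D D)) : C.IsTriangular π := by
  intro a b hab γ hγ
  have ht := h.transp.prod h
  by_cases ha : 2 * X.dim < a
  · rw [h.ck.eq_zero ha, C.zero_comp, C.zero_comp]
  have h2 : C.comp (C.comp (π a) γ) (π b) ∈ C.gr (X.prod X) X.dim :=
    C.comp_mem (C.comp_mem (h.ck.mem a) hγ rfl) (h.ck.mem b) rfl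
  rw [← act_prodCK_block h.ck h.ck (by omega) b γ]
  exact (ht.injS_all (stable_gr ht) 0).1 hI X.dim _ (by omega) _ h2

theorem _root_.Pool.Agent.Run7.h192.HL.LefschetzTriple.squareFull (hP : C.Polarized) (hN : NoPhantom W X)
    (h : LefschetzTriple W D Λ π) (hI : Inj C (boxSum C D D)) : AllB W X :=
  allB_of hP (triangular_of_one (noPhantom_iff.1 hN) h.ck (h.triangularOfFull hI)).murreC h

theorem Pairs.tfaeFull (hP : C.Polarized) (𝒯 : Pairs W)
    (hN : 𝒯.All fun X _ => NoPhantom W X) :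
    [𝒯.All fun _ D => Inj C D, 𝒯.All fun X _ => AllB W X,
      𝒯.All fun X D => ForOne W D fun π => ∀ i, 2 * i ≤ X.dim → FilZero C π i].TFAE := by
  tfae_have 1 → 2 := by
    intro h X D hm
    obtain ⟨Λ, π, ht⟩ := 𝒯.triple X D hm
    exact ht.toHL.squareFull hP (hN X D hm) (h _ _ (𝒯.prod X X D D hm hm))
  tfae_have 2 → 3 := by
    intro h X D hm
    obtain ⟨Λ, π, ht⟩ := 𝒯.triple X D hm
    exact ⟨Λ, π, ht, fun i _ => ((h X D hm).1 π ht.ck i).1⟩
  tfae_have 3 → 1 := by
    intro h X D hm i hi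
    obtain ⟨Λ, π, ht, h1⟩ := h X D hm
    exact (ht.toHL.full_iff i hi).2 (fun a ha => h1 a (by omega)) i le_rfl
  tfae_finish

theorem Pairs.tfaeB (hP : C.Polarized) (𝒯 : Pairs W) :
    [𝒯.All fun _ D => HomInj W D, 𝒯.All fun X _ => AllB W X ∧ AllOne W X,
      𝒯.All fun X D => ForOne W D fun π => ∀ i, 2 * i ≤ X.dim + 1 → FilOne W π i].TFAE := by
  tfae_have 1 → 2 := by
    intro h X D hm
    obtain ⟨Λ, π, ht⟩ := 𝒯.triple X D hm
    exact (ht.toHL.squareB hP (h _ _ (𝒯.prod X X D D hm hm))).2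
  tfae_have 2 → 3 := by
    intro h X D hm
    obtain ⟨Λ, π, ht⟩ := 𝒯.triple X D hm
    exact ⟨Λ, π, ht, fun i _ => (h X D hm).2 π ht.ck i⟩
  tfae_have 3 → 1 := by
    intro h X D hm i hi
    obtain ⟨Λ, π, ht, h1⟩ := h X D hm
    exact (ht.toHL.hom_iff i hi).2 (fun a ha => h1 a (by omega)) i le_rfl
  tfae_finish

end Pool.Agent.Run7.h192.HB
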